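import Pool.Agent.R550.PW.Poly

/-!
# Divisible pinwheel scheduling with durations and density at most 1/4
-/

namespace Pool.Agent.Results.MP_4842e4_lc.QuarterDensity

open Pool.Agent.NPC Pool.Agent.R550.PWD

/-- For `α = 1/4` there is a polynomial-time algorithm which, given any instance with frequency
divisibility and density at most `α`, correctly decides whether it is feasible. -/
theorem result : ∃ A : List Bool → List Bool, PolyTime A ∧
    ∀ V : List (ℕ × ℕ), IsInstance V → FreqDiv V → density V ≤ 1 / 4 →
      (A (bits V) = [true] ↔ Feasible V) := by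
  obtain ⟨A, hA, hA'⟩ := exists_alg
  refine ⟨A, hA, fun V hV hd hρ => ?_⟩
  rw [hA' V, List.cons_eq_cons]
  simp only [and_true]
  exact ⟨feasible_of_crit hV hd hρ, crit_of_feasible hV⟩

end Pool.Agent.Results.MP_4842e4_lc.QuarterDensity
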